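import Mathlib
import Pool.Agent.V8H69.EX.Main

/-!
# Baire measurable maps on a Lindelöf set of extreme points have separable ranges

Let `X` be a compact convex set in a Hausdorff locally convex space `V` and let `ext X` be Lindelöf. Then every
Baire measurable map `f : ext X → F` into a metrizable space `F` (in particular, into a Fréchet space) has a
separable range. This answers Q1 affirmatively.

Idea: for a countable set `D` of continuous functionals on `V` let `r_D : X → ℝ^D` be the map given by `D`. If
`ext X` is Lindelöf, then every countable `D₀` is contained in a countable `D` such that `r_D (ext X)` is the set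
of ALL extreme points of `r_D (X)` and nothing more, hence a Borel set (part (1) of the theorem). Every Baire set
of `ext X` depends on countably many functionals only. If `f` has a nonseparable range, there are `ℵ₁` many
disjoint nonempty Baire sets of `ext X` all of whose unions are Baire sets. This gives a Borel map from a Borel set
`r_D (ext X) ∩ C` into the Cantor set with an uncountable range `Q` such that the preimages of all subsets of `Q`
are Borel. There is a Cantor set on which this map is injective, so all subsets of the Cantor set would be Borel.
-/

set_option autoImplicit false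

open Set TopologicalSpace MeasureTheory

namespace Pool.Agent.Results.MP_fe178f_an.SeparableRange

/-- The Baire sets of a topological space: the members of the σ-algebra generated by the zero sets of the
continuous real functions. -/
def IsBaireSet {T : Type*} [TopologicalSpace T] (B : Set T) : Prop :=
  MeasurableSet[MeasurableSpace.generateFrom
    {Z : Set T | ∃ g : T → ℝ, Continuous g ∧ Z = g ⁻¹' {0}}] B

/-- `f` is Baire measurable: the preimages of open sets are Baire sets. -/
def BaireMeasurable {T F : Type*} [TopologicalSpace T] [TopologicalSpace F] (f : T → F) : Prop :=
  ∀ U : Set F, IsOpen U → IsBaireSet (f ⁻¹' U)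

/-- (1) Let `X` be a compact convex set in a Hausdorff locally convex space such that `ext X` is Lindelöf. For
every countable set `D₀` of continuous functionals there is a countable set `D` of continuous functionals with
`D₀ ⊆ D` such that the map `r_D : X → ℝ^D` given by `D` satisfies `r_D (ext X) = ext (r_D (X))`.

(2) Let `X` be a compact convex set in a Hausdorff locally convex space such that `ext X` is Lindelöf, let `F` be
a metrizable space (for example a Fréchet space), and let `f : ext X → F` be Baire measurable. Then the range of
`f` is separable. -/
theorem result :
    (∀ (V : Type*) [AddCommGroup V] [Module ℝ V] [TopologicalSpace V] [IsTopologicalAddGroup V]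
        [ContinuousSMul ℝ V] [T2Space V] [LocallyConvexSpace ℝ V] (X : Set V), IsCompact X →
        Convex ℝ X → LindelofSpace (X.extremePoints ℝ) →
        ∀ D₀ : Set (V →L[ℝ] ℝ), D₀.Countable → ∃ D : Set (V →L[ℝ] ℝ), D.Countable ∧ D₀ ⊆ D ∧
          (fun (x : V) (φ : D) => φ.1 x) '' (X.extremePoints ℝ) =
            ((fun (x : V) (φ : D) => φ.1 x) '' X).extremePoints ℝ) ∧
    (∀ (V : Type*) [AddCommGroup V] [Module ℝ V] [TopologicalSpace V] [IsTopologicalAddGroup V]
        [ContinuousSMul ℝ V] [T2Space V] [LocallyConvexSpace ℝ V] (X : Set V), IsCompact X →
        Convex ℝ X → LindelofSpace (X.extremePoints ℝ) →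
        ∀ (F : Type*) [TopologicalSpace F] [MetrizableSpace F] (f : X.extremePoints ℝ → F),
          BaireMeasurable f → SeparableSpace (range f)) := by
  refine ⟨?_, ?_⟩
  · intro V _ _ _ _ _ _ _ X hX hconv hL D₀ hD₀
    obtain ⟨D, hDc, hsub, hD⟩ := Pool.Agent.V8H69.EX.exists_good hX
      (isLindelof_iff_lindelofSpace.2 hL) D₀ hD₀
    exact ⟨D, hDc, hsub, Pool.Agent.V8H69.EX.image_extremePoints_eq hX hconv hD⟩
  · intro V _ _ _ _ _ _ _ X hX hconv hL F _ _ f hf
    let := metrizableSpaceMetric F
    have h := Pool.Agent.V8H69.EX.separable_range hX hconv (isLindelof_iff_lindelofSpace.2 hL) f hf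
    exact h.separableSpace

end Pool.Agent.Results.MP_fe178f_an.SeparableRange
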